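import Mathlib

set_option autoImplicit false

/-!
# Klein's icosahedral forms, with a parameter `w` such that `w ^ 2 = 1 - w`
-/

namespace Pool.Agent.Q252.IC

open Polynomial

section forms

variable {R : Type*} [CommRing R]

/-- the form of degree `12` -/
def fF (w u v : R) : R := w * u * v * ((w * u) ^ 10 + 11 * (w * u) ^ 5 * v ^ 5 - v ^ 10)

/-- the form of degree `20` -/
def hF (w u v : R) : R :=
  -((w * u) ^ 20 + v ^ 20) + 228 * ((w * u) ^ 15 * v ^ 5 - (w * u) ^ 5 * v ^ 15) - 494 * (w * u) ^ 10 * v ^ 10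

/-- the form of degree `30` -/
def tF (w u v : R) : R :=
  (w * u) ^ 30 + v ^ 30 + 522 * ((w * u) ^ 25 * v ^ 5 - (w * u) ^ 5 * v ^ 25) -
    10005 * ((w * u) ^ 20 * v ^ 10 + (w * u) ^ 10 * v ^ 20)

/-- the icosahedral equation -/
theorem ico (w u v : R) : tF w u v ^ 2 + hF w u v ^ 3 = 1728 * fF w u v ^ 5 := by
  unfold tF hF fF
  have h : w * u * v = (w * u) * v := rfl
  generalize w * u = x
  ring

theorem bez (w u v : R) :
    (378125 * v ^ 15 + (-(w * u) ^ 10 + 239 * (w * u) ^ 5 * v ^ 5 - 3124 * v ^ 10) * (11 * (w * u) ^ 5 + 122 * v ^ 5)) *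
      ((w * u) ^ 10 + 11 * (w * u) ^ 5 * v ^ 5 - v ^ 10) - (11 * (w * u) ^ 5 + 122 * v ^ 5) * hF w u v =
    3125 * v ^ 25 := by
  unfold hF
  generalize w * u = x
  ring

theorem h_u (w u v : R) : ∃ r, hF w u v = -v ^ 20 + u * r := by
  refine ⟨-(w * u) ^ 19 * w + 228 * ((w * u) ^ 14 * w * v ^ 5 - (w * u) ^ 4 * w * v ^ 15) -
    494 * (w * u) ^ 9 * w * v ^ 10, ?_⟩
  unfold hF
  ring

theorem h_v (w u v : R) : ∃ r, hF w u v = -(w * u) ^ 20 + v * r := by
  refine ⟨-v ^ 19 + 228 * ((w * u) ^ 15 * v ^ 4 - (w * u) ^ 5 * v ^ 14) - 494 * (w * u) ^ 10 * v ^ 9, ?_⟩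
  unfold hF
  ring

theorem f_map {S : Type*} [CommRing S] (g : R →+* S) (w u v : R) : g (fF w u v) = fF (g w) (g u) (g v) := by
  unfold fF
  simp only [map_mul, map_sub, map_add, map_pow, map_ofNat]

theorem h_map {S : Type*} [CommRing S] (g : R →+* S) (w u v : R) : g (hF w u v) = hF (g w) (g u) (g v) := by
  unfold hF
  simp only [map_mul, map_sub, map_add, map_pow, map_ofNat, map_neg]

theorem t_map {S : Type*} [CommRing S] (g : R →+* S) (w u v : R) : g (tF w u v) = tF (g w) (g u) (g v) := by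
  unfold tF
  simp only [map_mul, map_sub, map_add, map_pow, map_ofNat]

theorem w5 {w : R} (hw : w ^ 2 = 1 - w) : w ^ 5 = 5 * w - 3 := by
  linear_combination (w ^ 3 - w ^ 2 + 2 * w - 3) * hw

end forms

section field

variable {K : Type*} [Field K]

theorem f_hom (w u : K) {v : K} (hv : v ≠ 0) : fF w u v = v ^ 12 * fF w (u / v) 1 := by
  unfold fF
  field_simp

theorem h_hom (w u : K) {v : K} (hv : v ≠ 0) : hF w u v = v ^ 20 * hF w (u / v) 1 := by
  unfold hF
  field_simp

theorem t_hom (w u : K) {v : K} (hv : v ≠ 0) : tF w u v = v ^ 30 * tF w (u / v) 1 := by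
  unfold tF
  field_simp

/-- the polynomials -/
noncomputable def fP (w : K) : K[X] := fF (C w) X 1
noncomputable def hP (w : K) : K[X] := hF (C w) X 1
noncomputable def tP (w : K) : K[X] := tF (C w) X 1

theorem f_eval (w s : K) : (fP w).eval s = fF w s 1 := by
  have := f_map (evalRingHom s) (C w) X (1 : K[X])
  simpa [fP] using this

theorem h_eval (w s : K) : (hP w).eval s = hF w s 1 := by
  have := h_map (evalRingHom s) (C w) X (1 : K[X])
  simpa [hP] using this

theorem t_eval (w s : K) : (tP w).eval s = tF w s 1 := by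
  have := t_map (evalRingHom s) (C w) X (1 : K[X])
  simpa [tP] using this

theorem icoP (w : K) : tP w ^ 2 + hP w ^ 3 = 1728 * fP w ^ 5 := ico _ _ _

theorem f_deg (w : K) : (fP w).natDegree ≤ 11 := by
  unfold fP fF
  compute_degree

theorem h_deg (w : K) : (hP w).natDegree ≤ 20 := by
  unfold hP hF
  compute_degree

theorem t_deg (w : K) : (tP w).natDegree ≤ 30 := by
  unfold tP tF
  compute_degree

theorem h_deg_eq {w : K} (hw : w ≠ 0) : (hP w).natDegree = 20 := by
  have : w ^ 20 ≠ 0 := pow_ne_zero _ hw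
  unfold hP hF
  compute_degree!
  rw [mul_pow, ← C_pow, coeff_C_mul, coeff_X_pow_self, mul_one, coeff_one]
  simpa using hw

end field

end Pool.Agent.Q252.IC
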