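import Pool.Agent.Q252.IC.A
import Pool.Agent.Q265.BM.D

set_option autoImplicit false

/-!
# The icosahedral covering and the maps `4 t ^ m (1 - t ^ m)` are unramified outside `0, 1, ∞`
-/

namespace Pool.Agent.Q252.IC

open Polynomial NumberField

variable {K : Type*} [Field K]

theorem cop_fh [CharZero K] {w : K} (hw : w ≠ 0) : IsCoprime (fP w) (hP w) := by
  have hX : IsCoprime (X : K[X]) (hP w) := by
    obtain ⟨r, hr⟩ := h_u (C w) (X : K[X]) 1
    refine ⟨r, -1, ?_⟩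
    unfold hP
    rw [hr]
    ring
  have h3125 : (3125 : K) ≠ 0 := by norm_num
  have hG : IsCoprime ((C w * X) ^ 10 + 11 * (C w * X) ^ 5 * 1 ^ 5 - 1 ^ 10 : K[X]) (hP w) := by
    have hb := bez (C w) (X : K[X]) 1
    have e : (C (1 / 3125 : K)) * 3125 = 1 := by
      rw [← map_ofNat (C : K →+* K[X]) 3125, ← C_mul]
      norm_num
    refine ⟨C (1 / 3125 : K) * (378125 * 1 ^ 15 + (-(C w * X) ^ 10 + 239 * (C w * X) ^ 5 * 1 ^ 5 - 3124 * 1 ^ 10) *
      (11 * (C w * X) ^ 5 + 122 * 1 ^ 5)), -(C (1 / 3125 : K) * (11 * (C w * X) ^ 5 + 122 * 1 ^ 5)), ?_⟩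
    unfold hP
    linear_combination C (1 / 3125 : K) * hb + e
  have hwu : IsCoprime (C w : K[X]) (hP w) := by
    refine ⟨C w⁻¹, 0, ?_⟩
    rw [← C_mul, inv_mul_cancel₀ hw]
    simp
  have : fP w = C w * X * ((C w * X) ^ 10 + 11 * (C w * X) ^ 5 * 1 ^ 5 - 1 ^ 10) := by
    unfold fP fF
    ring
  rw [this]
  exact (hwu.mul_left hX).mul_left hG

theorem f_ne {w : K} (hw : w ≠ 0) : fP w ≠ 0 := by
  intro h
  have h1 := f_eval w w⁻¹
  rw [h] at h1
  have h2 : fF w w⁻¹ 1 = (1 : K) * 11 := by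
    unfold fF
    rw [mul_inv_cancel₀ hw]
    ring
  have h3 : ∀ s : K, fF w s 1 = 0 := fun s => by rw [← f_eval, h, eval_zero]
  -- the coefficient of `X`
  have h4 : (fP w).coeff 1 = -w := by
    unfold fP fF
    have : (C w * X * 1 * ((C w * X) ^ 10 + 11 * (C w * X) ^ 5 * 1 ^ 5 - 1 ^ 10) : K[X]) =
        C (w ^ 11) * X ^ 11 + C (11 * w ^ 6) * X ^ 6 - C w * X := by
      simp only [map_mul, map_pow, map_ofNat]
      ring
    rw [this]
    simp only [coeff_sub, coeff_add, coeff_C_mul, coeff_X_pow, coeff_X_one]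
    norm_num
  rw [h] at h4
  simp at h4
  exact hw h4

theorem h_ne {w : K} (hw : w ≠ 0) : hP w ≠ 0 := by
  intro h
  have := h_deg_eq hw
  rw [h, natDegree_zero] at this
  omega

theorem t_ne (w : K) : tP w ≠ 0 := by
  intro h
  have h1 := t_eval w 0
  rw [h] at h1
  unfold tF at h1
  norm_num at h1

theorem pol_ico (w : K) : Q265.BM.Pol (C 1728 * fP w ^ 5) (hP w ^ 3) ![0, 1] =
    hP w ^ 3 * (C 1728 * fP w ^ 5) * tP w ^ 2 := by
  unfold Q265.BM.Pol
  rw [Fin.prod_univ_two]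
  have h := icoP w
  have e : (C 1728 : K[X]) = 1728 := map_ofNat C 1728
  simp only [Matrix.cons_val_zero, Matrix.cons_val_one, map_zero, map_one, zero_mul, sub_zero, one_mul, e]
  linear_combination (hP w ^ 3 * (1728 * fP w ^ 5)) * (-h)

variable [NumberField K]

theorem inj01 : Function.Injective (![0, 1] : Fin 2 → K) := by
  intro i j hij
  fin_cases i <;> fin_cases j <;> simp_all

/-- the icosahedral covering -/
theorem step1 {w : K} (hw : w ^ 2 = 1 - w) (T : Set K)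
    (H : Q265.BM.VIneq ![0, 1] (Q265.BM.ImgOf (C 1728 * fP w ^ 5) (hP w ^ 3) T)) :
    Q265.BM.VIneq (![0, 1] : Fin 2 → K) T := by
  have hw0 : w ≠ 0 := by
    rintro rfl
    norm_num at hw
  have h1728 : (C 1728 : K[X]) ≠ 0 := by
    rw [Ne, C_eq_zero]
    norm_num
  have hu : IsUnit (C 1728 : K[X]) := by
    rw [isUnit_C]
    exact isUnit_iff_ne_zero.2 (by norm_num)
  refine Q265.BM.general (d := 60) (by norm_num) ?_ ?_ ?_ (Or.inr ?_) le_rfl ![0, 1]
    (r := tP w * hP w * fP w) (NN := 5) ?_ ?_ ?_ ?_ ![0, 1] inj01 ?_ T H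
  · exact (isCoprime_mul_unit_left_left hu _ _).2 ((cop_fh hw0).pow)
  · refine (natDegree_C_mul_le _ _).trans ?_
    rw [natDegree_pow]
    have := f_deg w
    omega
  · rw [natDegree_pow]
    have := h_deg w
    omega
  · rw [natDegree_pow, h_deg_eq hw0]
  · rw [pol_ico]
    exact ⟨tP w * hP w ^ 2 * (C 1728 * fP w ^ 4), by ring⟩
  · rw [pol_ico]
    obtain ⟨c, hc⟩ := hu.exists_right_inv
    refine ⟨c * (tP w ^ 3 * hP w ^ 2), ?_⟩
    linear_combination (-(tP w ^ 5 * hP w ^ 5 * fP w ^ 5)) * hc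
  · rw [pol_ico]
    exact mul_ne_zero (mul_ne_zero (pow_ne_zero _ (h_ne hw0)) (mul_ne_zero h1728 (pow_ne_zero _ (f_ne hw0))))
      (pow_ne_zero _ (t_ne w))
  · have h1 := natDegree_mul_le (p := tP w * hP w) (q := fP w)
    have h2 := natDegree_mul_le (p := tP w) (q := hP w)
    have h3 := t_deg w
    have h4 := h_deg w
    have h5 := f_deg w
    omega
  · intro i
    rw [pol_ico]
    have hz : ∀ s : K, fF w s 1 = 0 → (hP w ^ 3 * (C 1728 * fP w ^ 5) * tP w ^ 2).eval s = 0 := by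
      intro s hs
      simp only [eval_mul, eval_pow, f_eval, hs]
      ring
    apply hz
    have hi : (![0, 1] : Fin 2 → K) i = 0 ∨ (![0, 1] : Fin 2 → K) i = 1 := by
      fin_cases i <;> simp
    rcases hi with hi | hi
    · rw [hi]
      unfold fF
      simp
    · rw [hi]
      have h5 := w5 hw
      have h10 : w ^ 10 = (5 * w - 3) ^ 2 := by
        rw [← h5]
        ring
      unfold fF
      simp only [mul_one, one_pow]
      rw [h10, h5]
      have : w * ((5 * w - 3) ^ 2 + 11 * (5 * w - 3) - 1) = w * (25 * (w ^ 2 - (1 - w))) := by ring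
      rw [this, hw]
      ring

/-- the maps into neighbourhoods of `0` and `∞` -/
theorem step2 (m : ℕ) (hm : 1 ≤ m)
    (H : Q265.BM.VIneq ![0, 1] (Q265.BM.ImgOf (4 * X ^ m * (1 - X ^ m) : K[X]) 1 Set.univ)) :
    Q265.BM.VIneq (![0, 1] : Fin 2 → K) Set.univ := by
  have h4 : (C 4 : K[X]) = 4 := map_ofNat C 4
  have hX : (X ^ m - 1 : K[X]).natDegree = m := by
    rw [← C_1]
    exact natDegree_X_pow_sub_C
  have hX0 : (X ^ m - 1 : K[X]) ≠ 0 := by
    intro h
    rw [h, natDegree_zero] at hX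
    omega
  have hX2 : (2 * X ^ m - 1 : K[X]) ≠ 0 := by
    intro h
    have := congrArg (eval 0) h
    simp [show m ≠ 0 by omega] at this
  have hpol : Q265.BM.Pol (4 * X ^ m * (1 - X ^ m) : K[X]) 1 ![0, 1] =
      (4 * X ^ m * (X ^ m - 1)) * (2 * X ^ m - 1) ^ 2 := by
    unfold Q265.BM.Pol
    rw [Fin.prod_univ_two]
    simp only [Matrix.cons_val_zero, Matrix.cons_val_one, map_zero, map_one, zero_mul, sub_zero, one_mul, mul_one]
    ring
  have hdeg : (4 * X ^ m * (1 - X ^ m) : K[X]).natDegree = 2 * m := by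
    have e : (4 * X ^ m * (1 - X ^ m) : K[X]) = C (-4) * (X ^ m * (X ^ m - 1)) := by
      rw [C_neg, h4]
      ring
    rw [e, natDegree_C_mul (by norm_num), natDegree_mul (pow_ne_zero _ X_ne_zero) hX0, hX, natDegree_X_pow]
    ring
  refine Q265.BM.general (d := 2 * m) (by omega) isCoprime_one_right ?_ (by simp) (Or.inl hdeg) le_rfl ![0, 1]
    (r := X * (X ^ m - 1) * (2 * X ^ m - 1)) (NN := m + 2) ?_ ?_ ?_ ?_ ![0, 1] inj01 ?_ Set.univ H
  · exact hdeg.le
  · rw [hpol]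
    obtain ⟨n, rfl⟩ : ∃ n, m = n + 1 := ⟨m - 1, by omega⟩
    exact ⟨4 * X ^ n * (2 * X ^ (n + 1) - 1), by ring⟩
  · rw [hpol]
    have e : (4 : K[X]) * C (1 / 4) = 1 := by
      rw [← h4, ← C_mul]
      norm_num
    refine ⟨C (1 / 4) * (X ^ 2 * (X ^ m - 1) ^ (m + 1) * (2 * X ^ m - 1) ^ m), ?_⟩
    have e2 : (X * (X ^ m - 1) * (2 * X ^ m - 1) : K[X]) ^ (m + 2) =
        X ^ m * X ^ 2 * ((X ^ m - 1) ^ (m + 1) * (X ^ m - 1)) * ((2 * X ^ m - 1) ^ m * (2 * X ^ m - 1) ^ 2) := by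
      rw [mul_pow, mul_pow, pow_add X m 2, pow_succ (X ^ m - 1 : K[X]) (m + 1), pow_add (2 * X ^ m - 1 : K[X]) m 2]
    rw [e2]
    linear_combination (-(X ^ m * X ^ 2 * ((X ^ m - 1) ^ (m + 1) * (X ^ m - 1)) *
      ((2 * X ^ m - 1) ^ m * (2 * X ^ m - 1) ^ 2))) * e
  · rw [hpol]
    have h40 : (4 : K[X]) ≠ 0 := by
      rw [← h4, Ne, C_eq_zero]
      norm_num
    exact mul_ne_zero (mul_ne_zero (mul_ne_zero h40 (pow_ne_zero _ X_ne_zero)) hX0) (pow_ne_zero _ hX2)
  · have h1 := natDegree_mul_le (p := (X * (X ^ m - 1) : K[X])) (q := 2 * X ^ m - 1)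
    have h2 := natDegree_mul_le (p := (X : K[X])) (q := X ^ m - 1)
    have h3 : (2 * X ^ m - 1 : K[X]).natDegree ≤ m := by
      compute_degree
    rw [hX, natDegree_X] at h2
    omega
  · intro i
    rw [hpol]
    have hm0 : m ≠ 0 := by omega
    fin_cases i
    · simp [hm0]
    · simp

end Pool.Agent.Q252.IC
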