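import Pool.Agent.Q252.IC.A
import Pool.Agent.Y382.Gold

set_option autoImplicit false

/-!
# Coprime representations: the values of `4 t ^ m (1 - t ^ m)` are `u / v` with `M ∣ u v`
-/

namespace Pool.Agent.Q252.IC

open NumberField

/-- in a finite monoid one power makes all elements idempotent -/
theorem exists_idem (R : Type*) [Monoid R] [Finite R] : ∃ n : ℕ, 1 ≤ n ∧ ∀ a : R, a ^ n * a ^ n = a ^ n := by
  classical
  have h1 : ∀ a : R, ∃ n : ℕ, 1 ≤ n ∧ a ^ n * a ^ n = a ^ n := by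
    intro a
    obtain ⟨i, j, hij, he⟩ := Finite.exists_ne_map_eq_of_infinite (fun k : ℕ => a ^ k)
    wlog hlt : i < j generalizing i j
    · exact this j i hij.symm he.symm (by omega)
    obtain ⟨k, hk0, hk⟩ : ∃ k, 0 < k ∧ j = i + k := ⟨j - i, by omega, by omega⟩
    have he' : a ^ i = a ^ (i + k) := by rw [← hk]; exact he
    have h2 : ∀ r : ℕ, a ^ i = a ^ (i + k * r) := by
      intro r
      induction r with
      | zero => simp
      | succ r ih =>
        rw [mul_add, mul_one, ← add_assoc, pow_add, ← ih, ← pow_add]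
        exact he'
    refine ⟨(i + 1) * k, by nlinarith, ?_⟩
    have hle : i ≤ (i + 1) * k := by nlinarith
    obtain ⟨c, hc⟩ := Nat.exists_eq_add_of_le hle
    have h3 := h2 (i + 1)
    calc a ^ ((i + 1) * k) * a ^ ((i + 1) * k) = a ^ (i + k * (i + 1)) * a ^ c := by
          rw [← pow_add, ← pow_add]
          congr 1
          nth_rewrite 2 [hc]
          ring
      _ = a ^ i * a ^ c := by rw [← h3]
      _ = a ^ ((i + 1) * k) := by rw [← pow_add, ← hc]
  choose f hf1 hf2 using h1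
  haveI := Fintype.ofFinite R
  refine ⟨∏ a, f a, Nat.succ_le_of_lt (Finset.prod_pos fun a _ => hf1 a), fun a => ?_⟩
  obtain ⟨c, hc⟩ := Finset.dvd_prod_of_mem f (Finset.mem_univ a)
  have hid : ∀ k : ℕ, (a ^ f a) ^ (k + 1) = a ^ f a := by
    intro k
    induction k with
    | zero => simp
    | succ k ih => rw [pow_succ, ih, hf2]
  have hcpos : c ≠ 0 := by
    rintro rfl
    have : 0 < ∏ a, f a := Finset.prod_pos fun a _ => hf1 a
    rw [hc, mul_zero] at this
    omega
  obtain ⟨k, rfl⟩ := Nat.exists_eq_succ_of_ne_zero hcpos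
  rw [hc, pow_mul, hid, hf2]

variable {K : Type} [Field K] [NumberField K]

theorem dvd_key (M : 𝓞 K) (hM : M ≠ 0) : ∃ m : ℕ, 1 ≤ m ∧ ∀ a b : 𝓞 K, M ∣ a ^ m * b ^ m * (b ^ m - a ^ m) := by
  have hfin : Finite (𝓞 K ⧸ Ideal.span {M}) := by
    apply Ideal.finiteQuotientOfFreeOfNeBot
    rw [Ne, Ideal.span_singleton_eq_bot]
    exact hM
  obtain ⟨m, hm, hid⟩ := exists_idem (𝓞 K ⧸ Ideal.span {M})
  refine ⟨m, hm, fun a b => ?_⟩
  rw [← Ideal.mem_span_singleton, ← Ideal.Quotient.eq_zero_iff_mem]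
  simp only [map_mul, map_sub, map_pow]
  have ha := hid (Ideal.Quotient.mk (Ideal.span {M}) a)
  have hb := hid (Ideal.Quotient.mk (Ideal.span {M}) b)
  generalize (Ideal.Quotient.mk (Ideal.span {M}) a) ^ m = x at ha ⊢
  generalize (Ideal.Quotient.mk (Ideal.span {M}) b) ^ m = y at hb ⊢
  linear_combination x * hb - y * ha

/-- the values of `4 t ^ m (1 - t ^ m)` -/
theorem coprime_rep (hK : Module.finrank ℚ K = 2) {s : K} (hs : s ^ 2 = 5) (M : 𝓞 K) (hM : M ≠ 0) :
    ∃ m : ℕ, 1 ≤ m ∧ ∀ t : K, ∃ u v : 𝓞 K, v ≠ 0 ∧ IsCoprime u v ∧ M ∣ u * v ∧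
      4 * t ^ m * (1 - t ^ m) = (u : K) / v := by
  have h16 : (16 : 𝓞 K) ≠ 0 := by norm_num
  obtain ⟨m, hm, hdvd⟩ := dvd_key (16 * M) (mul_ne_zero h16 hM)
  refine ⟨m, hm, fun t => ?_⟩
  obtain ⟨a, b, hb, hab, rfl⟩ := Pool.Agent.Y382.Gold.exists_coprime hK hs t
  obtain ⟨u, v, hv, huv, he⟩ := Pool.Agent.Y382.Gold.exists_coprime hK hs
    (4 * ((a : K) / b) ^ m * (1 - ((a : K) / b) ^ m))
  refine ⟨u, v, hv, huv, ?_, he⟩
  have hbK : (b : K) ≠ 0 := RingOfIntegers.coe_ne_zero_iff.2 hb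
  have hvK : (v : K) ≠ 0 := RingOfIntegers.coe_ne_zero_iff.2 hv
  have e1 : u * b ^ (2 * m) = v * (4 * a ^ m * (b ^ m - a ^ m)) := by
    apply RingOfIntegers.coe_injective
    push_cast
    rw [eq_div_iff hvK] at he
    have hbm : (b : K) ^ m ≠ 0 := pow_ne_zero _ hbK
    have e2 : 4 * ((a : K) / b) ^ m * (1 - ((a : K) / b) ^ m) * (b : K) ^ (2 * m) =
        4 * (a : K) ^ m * ((b : K) ^ m - (a : K) ^ m) := by
      rw [div_pow, two_mul, pow_add]
      field_simp
    calc (u : K) * (b : K) ^ (2 * m) =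
        v * (4 * ((a : K) / b) ^ m * (1 - ((a : K) / b) ^ m) * (b : K) ^ (2 * m)) := by
          rw [← he]
          ring
      _ = _ := by
          rw [e2]
          congr 3
  have h1 : u ∣ 4 * a ^ m * (b ^ m - a ^ m) := by
    have : u ∣ v * (4 * a ^ m * (b ^ m - a ^ m)) := ⟨b ^ (2 * m), e1.symm⟩
    exact huv.dvd_of_dvd_mul_left this
  obtain ⟨g, hg⟩ := h1
  by_cases hu : u = 0
  · rw [hu, zero_mul]
    exact dvd_zero M
  have h2 : b ^ (2 * m) = v * g := by
    apply mul_left_cancel₀ hu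
    rw [e1, hg]
    ring
  -- `g` divides `4`
  have hcop : IsCoprime (a ^ m * (b ^ m - a ^ m)) (b ^ (2 * m)) := by
    apply IsCoprime.pow_right
    apply IsCoprime.mul_left hab.pow_left
    obtain ⟨n, rfl⟩ : ∃ n, m = n + 1 := ⟨m - 1, by omega⟩
    have h3 : IsCoprime (-a ^ (n + 1)) b := (hab.pow_left).neg_left
    have h4 : b ^ (n + 1) - a ^ (n + 1) = -a ^ (n + 1) + b ^ n * b := by ring
    rw [h4]
    exact h3.add_mul_right_left (b ^ n)
  have hg4 : g ∣ 4 := by
    have h3 : IsCoprime g (a ^ m * (b ^ m - a ^ m)) :=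
      (hcop.symm).of_isCoprime_of_dvd_left ⟨v, by rw [h2]; ring⟩
    have h4 : g ∣ (a ^ m * (b ^ m - a ^ m)) * 4 := ⟨u, by linear_combination hg⟩
    exact h3.dvd_of_dvd_mul_left h4
  obtain ⟨k, hk⟩ := hg4
  have h5 : 16 * M ∣ 16 * (u * v) := by
    have e3 : 16 * (u * v) = (a ^ m * b ^ m * (b ^ m - a ^ m)) * (4 * b ^ m * k ^ 2) := by
      have e4 : (4 * a ^ m * (b ^ m - a ^ m)) * b ^ (2 * m) = u * v * g ^ 2 := by
        rw [hg, h2]
        ring
      have e5 : (b : 𝓞 K) ^ (2 * m) = b ^ m * b ^ m := by rw [two_mul, pow_add]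
      rw [e5] at e4
      have e6 : (g * k) ^ 2 = 16 := by
        rw [← hk]
        norm_num
      linear_combination (-(u * v)) * e6 - k ^ 2 * e4
    rw [e3]
    exact Dvd.dvd.mul_right (hdvd a b) _
  exact (mul_dvd_mul_iff_left h16).1 h5

/-- the forms of degrees `30` and `20` are coprime if `30 ∣ u v` -/
theorem cop_th {w u v : 𝓞 K} (hw : w ^ 2 = 1 - w) (huv : IsCoprime u v) (h30 : (30 : 𝓞 K) ∣ u * v) :
    IsCoprime (tF w u v) (hF w u v) := by
  rw [← Ideal.isCoprime_span_singleton_iff, Ideal.isCoprime_iff_sup_eq]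
  by_contra hne
  obtain ⟨P, hP, hle⟩ := Ideal.exists_le_maximal _ hne
  have hPp : P.IsPrime := hP.isPrime
  have ht : tF w u v ∈ P := hle (Ideal.mem_sup_left (Ideal.mem_span_singleton_self _))
  have hh : hF w u v ∈ P := hle (Ideal.mem_sup_right (Ideal.mem_span_singleton_self _))
  have hbad : ¬ (u ∈ P ∧ v ∈ P) := by
    rintro ⟨h1, h2⟩
    obtain ⟨x, y, hxy⟩ := huv
    apply hPp.ne_top
    rw [Ideal.eq_top_iff_one, ← hxy]
    exact P.add_mem (P.mul_mem_left _ h1) (P.mul_mem_left _ h2)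
  have hwP : w ∉ P := by
    intro h
    apply hPp.ne_top
    rw [Ideal.eq_top_iff_one]
    have : (1 : 𝓞 K) = w * (w + 1) := by linear_combination -hw
    rw [this]
    exact P.mul_mem_right _ h
  have h30P : (30 : 𝓞 K) ∈ P → u ∈ P ∨ v ∈ P := by
    intro h
    exact hPp.mem_or_mem (P.mem_of_dvd h30 h)
  -- one of `u`, `v` is in `P`
  have hone : u ∈ P ∨ v ∈ P := by
    have h1 : 1728 * fF w u v ^ 5 ∈ P := by
      rw [← ico]
      exact P.add_mem (Ideal.pow_mem_of_mem P ht 2 (by norm_num)) (Ideal.pow_mem_of_mem P hh 3 (by norm_num))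
    rcases hPp.mem_or_mem h1 with h | h
    · have e : (1728 : 𝓞 K) = 2 ^ 6 * 3 ^ 3 := by norm_num
      rw [e] at h
      rcases hPp.mem_or_mem h with h | h
      · apply h30P
        have := hPp.mem_of_pow_mem _ h
        have e : (30 : 𝓞 K) = 15 * 2 := by norm_num
        rw [e]
        exact P.mul_mem_left _ this
      · apply h30P
        have := hPp.mem_of_pow_mem _ h
        have e : (30 : 𝓞 K) = 10 * 3 := by norm_num
        rw [e]
        exact P.mul_mem_left _ this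
    · have h2 := hPp.mem_of_pow_mem _ h
      unfold fF at h2
      rcases hPp.mem_or_mem h2 with h3 | h3
      · rcases hPp.mem_or_mem h3 with h4 | h4
        · rcases hPp.mem_or_mem h4 with h5 | h5
          · exact absurd h5 hwP
          · exact Or.inl h5
        · exact Or.inr h4
      · have h4 : 3125 * v ^ 25 ∈ P := by
          rw [← bez w u v]
          exact P.sub_mem (P.mul_mem_left _ h3) (P.mul_mem_left _ hh)
        rcases hPp.mem_or_mem h4 with h5 | h5
        · have e : (3125 : 𝓞 K) = 5 ^ 5 := by norm_num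
          rw [e] at h5
          apply h30P
          have := hPp.mem_of_pow_mem _ h5
          have e : (30 : 𝓞 K) = 6 * 5 := by norm_num
          rw [e]
          exact P.mul_mem_left _ this
        · exact Or.inr (hPp.mem_of_pow_mem _ h5)
  rcases hone with h | h
  · obtain ⟨r, hr⟩ := h_u w u v
    have h1 : v ^ 20 ∈ P := by
      have : v ^ 20 = u * r - hF w u v := by rw [hr]; ring
      rw [this]
      exact P.sub_mem (P.mul_mem_right _ h) hh
    exact hbad ⟨h, hPp.mem_of_pow_mem _ h1⟩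
  · obtain ⟨r, hr⟩ := h_v w u v
    have h1 : (w * u) ^ 20 ∈ P := by
      have : (w * u) ^ 20 = v * r - hF w u v := by rw [hr]; ring
      rw [this]
      exact P.sub_mem (P.mul_mem_right _ h) hh
    rcases hPp.mem_or_mem (hPp.mem_of_pow_mem _ h1) with h2 | h2
    · exact hwP h2
    · exact hbad ⟨h2, h⟩

end Pool.Agent.Q252.IC
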