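import Pool.Agent.Q252.IC.B
import Pool.Agent.Q265.NF.D

set_option autoImplicit false

/-!
# Heights and radicals of triples in lowest terms
-/

namespace Pool.Agent.Q252.IC

open NumberField IsDedekindDomain Height Function

variable {K : Type} [Field K] [NumberField K]

/-- the triples in lowest terms with `a + b + c = 0` and `abc ≠ 0` -/
structure Triple (t : 𝓞 K × 𝓞 K × 𝓞 K) : Prop where
  sum : t.1 + t.2.1 + t.2.2 = 0
  ne : t.1 * t.2.1 * t.2.2 ≠ 0
  cop : Ideal.span {t.1, t.2.1, t.2.2} = (⊤ : Ideal (𝓞 K))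

/-- the height -/
noncomputable def height (t : 𝓞 K × 𝓞 K × 𝓞 K) : ℝ :=
  ∏ φ : K →+* ℂ, max ‖φ t.1‖ (max ‖φ t.2.1‖ ‖φ t.2.2‖)

/-- the radical -/
noncomputable def rad (t : 𝓞 K × 𝓞 K × 𝓞 K) : ℝ :=
  ∏ᶠ (P : HeightOneSpectrum (𝓞 K)) (_ : t.1 * t.2.1 * t.2.2 ∈ P.asIdeal),
    (Ideal.absNorm P.asIdeal : ℝ)

/-- a product over the embeddings is a product over the infinite places with multiplicity -/
theorem prod_emb (f : InfinitePlace K → ℝ) :
    ∏ φ : K →+* ℂ, f (InfinitePlace.mk φ) = ∏ w : InfinitePlace K, f w ^ w.mult := by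
  classical
  rw [← Finset.prod_fiberwise Finset.univ (fun φ : K →+* ℂ => InfinitePlace.mk φ)]
  refine Finset.prod_congr rfl fun w _ => ?_
  rw [← InfinitePlace.card_filter_mk_eq w, ← Finset.prod_const]
  refine Finset.prod_congr rfl fun φ hφ => ?_
  rw [(Finset.mem_filter.mp hφ).2]

theorem v_le (v : FinitePlace K) (r : 𝓞 K) : v (r : K) ≤ 1 := by
  have := Q265.NF.small_of_mem (v := v) (n := 0) (r := r) (by simp)
  simpa using this

theorem Triple.ne1 {t : 𝓞 K × 𝓞 K × 𝓞 K} (h : Triple t) : (t.1 : K) ≠ 0 :=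
  RingOfIntegers.coe_ne_zero_iff.2 (left_ne_zero_of_mul (left_ne_zero_of_mul h.ne))

theorem Triple.ne2 {t : 𝓞 K × 𝓞 K × 𝓞 K} (h : Triple t) : (t.2.1 : K) ≠ 0 :=
  RingOfIntegers.coe_ne_zero_iff.2 (right_ne_zero_of_mul (left_ne_zero_of_mul h.ne))

theorem Triple.ne3 {t : 𝓞 K × 𝓞 K × 𝓞 K} (h : Triple t) : (t.2.2 : K) ≠ 0 :=
  RingOfIntegers.coe_ne_zero_iff.2 (right_ne_zero_of_mul h.ne)

theorem Triple.sumK {t : 𝓞 K × 𝓞 K × 𝓞 K} (h : Triple t) : (t.1 : K) + t.2.1 + t.2.2 = 0 := by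
  have := congrArg (algebraMap (𝓞 K) K) h.sum
  simpa using this

theorem Triple.notmem {t : 𝓞 K × 𝓞 K × 𝓞 K} (h : Triple t) (v : FinitePlace K) :
    ¬ (t.1 ∈ v.maximalIdeal.asIdeal ∧ t.2.1 ∈ v.maximalIdeal.asIdeal ∧ t.2.2 ∈ v.maximalIdeal.asIdeal) := by
  rintro ⟨h1, h2, h3⟩
  have h4 : Ideal.span {t.1, t.2.1, t.2.2} ≤ v.maximalIdeal.asIdeal := by
    rw [Ideal.span_le]
    rintro x (rfl | rfl | rfl)
    · exact h1
    · exact h2
    · exact h3
  rw [h.cop, top_le_iff] at h4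
  exact v.maximalIdeal.isPrime.ne_top h4

theorem nez {t : 𝓞 K × 𝓞 K × 𝓞 K} (h : Triple t) : ∀ i, (![(t.1 : K), t.2.1, t.2.2] : Fin 3 → K) i ≠ 0 := by
  intro i
  fin_cases i
  · exact h.ne1
  · exact h.ne2
  · exact h.ne3

/-- the height of a triple in lowest terms -/
theorem log_height {t : 𝓞 K × 𝓞 K × 𝓞 K} (h : Triple t) :
    Real.log (height t) = logHeight ![(t.1 : K), t.2.1, t.2.2] := by
  rw [logHeight_eq_log_mulHeight, Q241.AK.height_eq (nez h)]
  congr 1
  have h1 : ∏ᶠ v : FinitePlace K, Q241.AK.mf ![(t.1 : K), t.2.1, t.2.2] v = 1 := by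
    apply finprod_eq_one_of_forall_eq_one
    intro v
    refine le_antisymm (Q265.NF.mf_le fun i => ?_) ?_
    · fin_cases i
      · exact v_le v _
      · exact v_le v _
      · exact v_le v _
    · by_contra hlt
      push Not at hlt
      apply h.notmem v
      have key : ∀ r : 𝓞 K, v (r : K) < 1 → r ∈ v.maximalIdeal.asIdeal := by
        intro r hr
        by_contra hcon
        rw [Q265.NF.int_one.2 hcon] at hr
        exact lt_irrefl _ hr
      exact ⟨key _ ((Q241.AK.le_mf _ v 0).trans_lt hlt), key _ ((Q241.AK.le_mf _ v 1).trans_lt hlt),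
        key _ ((Q241.AK.le_mf _ v 2).trans_lt hlt)⟩
  rw [h1, mul_one]
  have h2 : ∀ w : InfinitePlace K, Q241.AK.mi ![(t.1 : K), t.2.1, t.2.2] w =
      max (w (t.1 : K)) (max (w (t.2.1 : K)) (w (t.2.2 : K))) := by
    intro w
    apply le_antisymm
    · refine Q265.NF.mi_le fun i => ?_
      fin_cases i
      · exact le_max_left _ _
      · exact (le_max_left _ _).trans (le_max_right _ _)
      · exact (le_max_right _ _).trans (le_max_right _ _)
    · have l0 := Q241.AK.le_mi ![(t.1 : K), t.2.1, t.2.2] w 0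
      have l1 := Q241.AK.le_mi ![(t.1 : K), t.2.1, t.2.2] w 1
      have l2 := Q241.AK.le_mi ![(t.1 : K), t.2.1, t.2.2] w 2
      exact max_le l0 (max_le l1 l2)
  rw [Finset.prod_congr rfl fun w _ => by rw [h2 w], ← prod_emb]
  rfl

/-- the radical -/
theorem rad_PP (t : 𝓞 K × 𝓞 K × 𝓞 K) :
    rad t = Q265.NF.PP {v : FinitePlace K | t.1 * t.2.1 * t.2.2 ∈ v.maximalIdeal.asIdeal} := by
  classical
  unfold rad Q265.NF.PP
  rw [← finprod_comp_equiv (FinitePlace.equivHeightOneSpectrum (K := K))]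
  refine finprod_congr fun v => ?_
  rw [FinitePlace.equivHeightOneSpectrum_apply, finprod_eq_if]
  unfold Q241.AK.pr Q241.AK.N
  by_cases hv : t.1 * t.2.1 * t.2.2 ∈ v.maximalIdeal.asIdeal
  · have hv' : v ∈ {v : FinitePlace K | t.1 * t.2.1 * t.2.2 ∈ v.maximalIdeal.asIdeal} := hv
    rw [if_pos hv, if_pos hv']
  · have hv' : v ∉ {v : FinitePlace K | t.1 * t.2.1 * t.2.2 ∈ v.maximalIdeal.asIdeal} := hv
    rw [if_neg hv, if_neg hv']

/-- the conductor of a triple -/
theorem cond_eq {a b c : K} (hc : c ≠ 0) (h : a + b + c = 0) :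
    Q265.BM.Us ∅ ![0, 1] (-a / c) = {v : FinitePlace K | ¬ (v a = v b ∧ v b = v c)} := by
  have hs1 : -a / c - 1 = b / c := by
    field_simp
    linear_combination -h
  ext v
  have hvc : 0 < v c := FinitePlace.pos_iff.2 hc
  have e1 : v (-a / c) = v a / v c := by rw [map_div₀, Q265.BM.fneg']
  have e2 : v (-a / c - 1) = v b / v c := by rw [hs1, map_div₀]
  show (v ∉ (∅ : Finset (FinitePlace K)) ∧ ((∃ i : Fin 2, Q265.BM.Meets v (![0, 1] i) (-a / c)) ∨
      1 < v (-a / c))) ↔ ¬ (v a = v b ∧ v b = v c)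
  obtain ⟨s, hs⟩ : ∃ s : K, s = -a / c := ⟨_, rfl⟩
  rw [← hs] at e1 e2 ⊢
  have hfin2 : (∃ i : Fin 2, Q265.BM.Meets v ((![0, 1] : Fin 2 → K) i) s) ↔
      Q265.BM.Meets v 0 s ∨ Q265.BM.Meets v 1 s := by
    constructor
    · rintro ⟨i, hi⟩
      fin_cases i
      · exact Or.inl hi
      · exact Or.inr hi
    · rintro (hi | hi)
      · exact ⟨0, hi⟩
      · exact ⟨1, hi⟩
  have hm0 : Q265.BM.Meets v 0 s ↔ v s < max (v s) 1 := by
    unfold Q265.BM.Meets
    rw [sub_zero, map_zero, max_eq_right zero_le_one, mul_one]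
  have hm1 : Q265.BM.Meets v 1 s ↔ v (s - 1) < max (v s) 1 := by
    unfold Q265.BM.Meets
    rw [map_one, max_self, mul_one]
  have hle : v (s - 1) ≤ max (v s) 1 := by
    have := FinitePlace.add_le v s (-1)
    rwa [Q265.BM.fneg', map_one, ← sub_eq_add_neg] at this
  rw [hfin2, hm0, hm1]
  have k1 : v a = v b ∧ v b = v c ↔ v s = 1 ∧ v (s - 1) = 1 := by
    rw [e1, e2, div_eq_one_iff_eq hvc.ne', div_eq_one_iff_eq hvc.ne']
    constructor
    · rintro ⟨h1, h2⟩
      exact ⟨h1.trans h2, h2⟩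
    · rintro ⟨h1, h2⟩
      exact ⟨h1.trans h2.symm, h2⟩
  rw [k1]
  constructor
  · rintro ⟨-, h1⟩ ⟨h2, h3⟩
    rw [h2, h3, max_self] at h1
    rcases h1 with (h1 | h1) | h1 <;> exact lt_irrefl _ h1
  · intro h1
    refine ⟨Finset.notMem_empty v, ?_⟩
    by_contra hcon
    push Not at hcon
    obtain ⟨⟨c1, c2⟩, c3⟩ := hcon
    rw [max_eq_right c3] at c1 c2 hle
    exact h1 ⟨le_antisymm c3 c1, le_antisymm hle c2⟩

/-- the radical of a triple in lowest terms -/
theorem rad_eq {t : 𝓞 K × 𝓞 K × 𝓞 K} (h : Triple t) :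
    rad t = Q265.NF.PP (Q265.BM.Us ∅ ![0, 1] (-(t.2.2 : K) / t.2.1)) := by
  rw [rad_PP, cond_eq (b := (t.1 : K)) h.ne2 (by linear_combination h.sumK)]
  congr 1
  ext v
  have hint : ∀ r : 𝓞 K, v (r : K) = 1 ↔ r ∉ v.maximalIdeal.asIdeal := fun r => Q265.NF.int_one
  have hlt : ∀ r : 𝓞 K, r ∈ v.maximalIdeal.asIdeal → v (r : K) < 1 := by
    intro r hr
    refine lt_of_le_of_ne (v_le v r) ?_
    intro h1
    exact (hint r).1 h1 hr
  have hP := v.maximalIdeal.isPrime
  show t.1 * t.2.1 * t.2.2 ∈ v.maximalIdeal.asIdeal ↔ ¬ (v (t.2.2 : K) = v (t.1 : K) ∧ v (t.1 : K) = v (t.2.1 : K))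
  constructor
  · rintro hmem ⟨h1, h2⟩
    apply h.notmem v
    have key : ∀ r : 𝓞 K, v (r : K) < 1 → r ∈ v.maximalIdeal.asIdeal := by
      intro r hr
      by_contra hcon
      rw [(hint r).2 hcon] at hr
      exact lt_irrefl _ hr
    have hsmall : v (t.1 : K) < 1 := by
      rcases hP.mem_or_mem hmem with h3 | h3
      · rcases hP.mem_or_mem h3 with h4 | h4
        · exact hlt _ h4
        · rw [h2]
          exact hlt _ h4
      · rw [← h1]
        exact hlt _ h3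
    exact ⟨key _ hsmall, key _ (by rwa [← h2]), key _ (by rwa [h1])⟩
  · intro h1
    by_contra hcon
    apply h1
    have h2 : t.1 ∉ v.maximalIdeal.asIdeal := fun h3 =>
      hcon (Ideal.mul_mem_right _ _ (Ideal.mul_mem_right _ _ h3))
    have h3 : t.2.1 ∉ v.maximalIdeal.asIdeal := fun h3 =>
      hcon (Ideal.mul_mem_right _ _ (Ideal.mul_mem_left _ _ h3))
    have h4 : t.2.2 ∉ v.maximalIdeal.asIdeal := fun h3 => hcon (Ideal.mul_mem_left _ _ h3)
    rw [(hint _).2 h2, (hint _).2 h3, (hint _).2 h4]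
    exact ⟨rfl, rfl⟩

theorem height_pos {t : 𝓞 K × 𝓞 K × 𝓞 K} (h : Triple t) : 0 < height t := by
  unfold height
  refine Finset.prod_pos fun φ _ => lt_of_lt_of_le ?_ (le_max_left _ _)
  rw [norm_pos_iff]
  intro h1
  exact h.ne1 ((map_eq_zero φ).1 h1)

theorem hgt_low {t : 𝓞 K × 𝓞 K × 𝓞 K} (h : Triple t) :
    logHeight₁ (-(t.2.2 : K) / t.2.1) ≤ Real.log (height t) := by
  rw [log_height h, neg_div, logHeight₁_neg, logHeight₁_div_eq_logHeight]
  have h1 := logHeight_comp_le (![2, 1] : Fin 2 → Fin 3) ![(t.1 : K), t.2.1, t.2.2]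
  have e : ![(t.1 : K), t.2.1, t.2.2] ∘ (![2, 1] : Fin 2 → Fin 3) = ![(t.2.2 : K), t.2.1] := by
    funext i
    fin_cases i <;> rfl
  rwa [e] at h1

theorem height_up {a b c : K} (ha : a ≠ 0) (hb : b ≠ 0) (hc : c ≠ 0) (h : a + b + c = 0) :
    logHeight ![a, b, c] ≤ logHeight ![a, c] + Module.finrank ℚ K * Real.log 2 := by
  have h1 : logHeight ![a, a, c] ≤ logHeight ![a, c] := by
    have h := logHeight_comp_le (![0, 0, 1] : Fin 3 → Fin 2) ![a, c]
    have e : ![a, c] ∘ (![0, 0, 1] : Fin 3 → Fin 2) = ![a, a, c] := by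
      funext i
      fin_cases i <;> rfl
    rwa [e] at h
  have eb : b = -a + -c := by linear_combination h
  have h2 : logHeight ![a, b, c] ≤ logHeight ![a, a, c] + Module.finrank ℚ K * Real.log 2 := by
    refine Q265.NF.log_loc_le ?_ ?_ one_le_two (fun v => Q265.NF.mf_le fun i => ?_)
      (fun w => Q265.NF.mi_le fun i => ?_)
    · intro i
      fin_cases i
      · exact ha
      · exact hb
      · exact hc
    · intro i
      fin_cases i
      · exact ha
      · exact ha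
      · exact hc
    · have m0 : v a ≤ Q241.AK.mf ![a, a, c] v := Finite.le_ciSup (fun i => v (![a, a, c] i)) 0
      have m2 : v c ≤ Q241.AK.mf ![a, a, c] v := Finite.le_ciSup (fun i => v (![a, a, c] i)) 2
      fin_cases i
      · exact m0
      · show v b ≤ _
        rw [eb]
        refine (FinitePlace.add_le v _ _).trans (max_le ?_ ?_)
        · rwa [Q265.BM.fneg']
        · rwa [Q265.BM.fneg']
      · exact m2
    · have m0 : w a ≤ Q241.AK.mi ![a, a, c] w := Finite.le_ciSup (fun i => w (![a, a, c] i)) 0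
      have m2 : w c ≤ Q241.AK.mi ![a, a, c] w := Finite.le_ciSup (fun i => w (![a, a, c] i)) 2
      have m3 : 0 ≤ w a := by positivity
      have m4 : 0 ≤ w c := by positivity
      fin_cases i
      · show w a ≤ _
        linarith
      · show w b ≤ _
        rw [eb]
        have h5 := Q265.BM.iadd' w (-a) (-c)
        have h6 : w (-a) = w a := w.val.map_neg a
        have h7 : w (-c) = w c := w.val.map_neg c
        rw [h6, h7] at h5
        linarith
      · show w c ≤ _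
        linarith
  linarith

theorem hgt_up {t : 𝓞 K × 𝓞 K × 𝓞 K} (h : Triple t) :
    Real.log (height t) ≤ logHeight₁ (-(t.2.2 : K) / t.2.1) + Module.finrank ℚ K * Real.log 2 := by
  rw [log_height h, neg_div, logHeight₁_neg, logHeight₁_div_eq_logHeight]
  have h1 := logHeight_comp_le (![1, 2, 0] : Fin 3 → Fin 3) ![(t.2.2 : K), t.1, t.2.1]
  have e : ![(t.2.2 : K), t.1, t.2.1] ∘ (![1, 2, 0] : Fin 3 → Fin 3) = ![(t.1 : K), t.2.1, t.2.2] := by
    funext i
    fin_cases i <;> rfl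
  rw [e] at h1
  exact h1.trans (height_up h.ne3 h.ne1 h.ne2 (by linear_combination h.sumK))

end Pool.Agent.Q252.IC
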