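import Pool.Agent.Q252.IC.C
import Pool.Agent.Q252.IC.D

set_option autoImplicit false

/-!
# The abc conjecture over `ℤ[(1 + √5) / 2]` and the icosahedral equation
-/

namespace Pool.Agent.Q252.IC

open NumberField Height Function Polynomial

variable {K : Type} [Field K] [NumberField K]

/-- the inequality for the triples in `T` -/
def ABCOn (T : Set (𝓞 K × 𝓞 K × 𝓞 K)) : Prop :=
  ∀ ε : ℝ, 0 < ε → ∃ C : ℝ, ∀ t ∈ T, Triple t → height t ≤ C * rad t ^ (1 + ε)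

theorem ABCOn.mono {T T' : Set (𝓞 K × 𝓞 K × 𝓞 K)} (h : T ⊆ T') (H : ABCOn T') : ABCOn T := by
  intro ε hε
  obtain ⟨C, hC⟩ := H ε hε
  exact ⟨C, fun t ht => hC t (h ht)⟩

theorem ratio_ne {t : 𝓞 K × 𝓞 K × 𝓞 K} (h : Triple t) :
    ∀ i, -(t.2.2 : K) / t.2.1 ≠ (![0, 1] : Fin 2 → K) i := by
  have h0 : -(t.2.2 : K) / t.2.1 ≠ 0 := div_ne_zero (neg_ne_zero.2 h.ne3) h.ne2
  have h1 : -(t.2.2 : K) / t.2.1 ≠ 1 := by
    intro h1
    rw [div_eq_one_iff_eq h.ne2] at h1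
    apply h.ne1
    linear_combination h.sumK + h1
  intro i
  fin_cases i
  · exact h0
  · exact h1

theorem one_le_rad {t : 𝓞 K × 𝓞 K × 𝓞 K} (h : Triple t) : 1 ≤ rad t := by
  rw [rad_eq h]
  exact Q265.NF.one_le_PP _

/-- from the truncated Vojta inequality to the abc inequality -/
theorem of_V (H : Q265.BM.VIneq (![0, 1] : Fin 2 → K) Set.univ) : ABCOn (K := K) Set.univ := by
  intro ε hε
  have h1ε : 0 < 1 + ε := by linarith
  obtain ⟨C, hC⟩ := H ∅ (ε / (1 + ε)) (by positivity)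
  refine ⟨Real.exp ((1 + ε) * |C| + Module.finrank ℚ K * Real.log 2), fun t _ ht => ?_⟩
  have h2 := hC (-(t.2.2 : K) / t.2.1) (Set.mem_univ _) (ratio_ne ht)
  rw [← rad_eq ht] at h2
  have h3 := hgt_up ht
  obtain ⟨L, hL⟩ : ∃ L : ℝ, L = logHeight₁ (-(t.2.2 : K) / t.2.1) := ⟨_, rfl⟩
  rw [← hL] at h2 h3
  have hr := one_le_rad ht
  have hr0 : 0 < rad t := by linarith
  have e : (((2 : ℕ) : ℝ) - 1 - ε / (1 + ε)) = 1 / (1 + ε) := by
    field_simp
    push_cast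
    ring
  rw [e, one_div, inv_mul_le_iff₀ h1ε] at h2
  have h4 := le_abs_self C
  have h5 : Real.log (height t) ≤ (1 + ε) * Real.log (rad t) +
      ((1 + ε) * |C| + Module.finrank ℚ K * Real.log 2) := by
    have : (1 + ε) * (Real.log (rad t) + C) ≤ (1 + ε) * (Real.log (rad t) + |C|) := by gcongr
    linarith
  calc height t = Real.exp (Real.log (height t)) := (Real.exp_log (height_pos ht)).symm
    _ ≤ Real.exp ((1 + ε) * Real.log (rad t) + ((1 + ε) * |C| + Module.finrank ℚ K * Real.log 2)) :=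
        Real.exp_le_exp.2 h5
    _ = _ := by
        rw [Real.exp_add, Real.rpow_def_of_pos hr0, mul_comm (1 + ε) (Real.log (rad t))]
        ring

/-- from the abc inequality for a family to the truncated Vojta inequality -/
theorem to_V {F : Set (𝓞 K × 𝓞 K × 𝓞 K)} (H : ABCOn F) {T : Set K}
    (hT : ∀ y ∈ T, y ≠ 0 → y ≠ 1 → ∃ t ∈ F, Triple t ∧ y = -(t.2.2 : K) / t.2.1) :
    Q265.BM.VIneq (![0, 1] : Fin 2 → K) T := by
  intro S ε hε
  obtain ⟨C, hC⟩ := H ε hε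
  obtain ⟨C1, hC1⟩ : ∃ C1 : ℝ, C1 = max C 1 := ⟨_, rfl⟩
  have hC11 : 1 ≤ C1 := by rw [hC1]; exact le_max_right _ _
  have hC1l : 0 ≤ Real.log C1 := Real.log_nonneg hC11
  have hPS := Q265.BM.log_PP_nonneg (S : Set (FinitePlace K))
  refine ⟨Real.log C1 + Real.log (Q265.NF.PP (S : Set (FinitePlace K))), fun y hy hyi => ?_⟩
  have hUn := Q265.BM.log_PP_nonneg (Q265.BM.Us S ![0, 1] y)
  have hL := zero_le_logHeight₁ y
  have e2 : (((2 : ℕ) : ℝ) - 1 - ε) = 1 - ε := by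
    push_cast
    ring
  rw [e2]
  by_cases hε1 : 1 ≤ ε
  · have : (1 - ε) * logHeight₁ y ≤ 0 := mul_nonpos_of_nonpos_of_nonneg (by linarith) hL
    linarith
  push Not at hε1
  obtain ⟨t, htF, ht, rfl⟩ := hT y hy (hyi 0) (hyi 1)
  have h1 := hC t htF ht
  have hr := one_le_rad ht
  have hr0 : 0 < rad t := by linarith
  have h2 : height t ≤ C1 * rad t ^ (1 + ε) := by
    refine h1.trans ?_
    gcongr
    rw [hC1]
    exact le_max_left _ _
  have h3 := Real.log_le_log (height_pos ht) h2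
  rw [Real.log_mul (by positivity) (by positivity), Real.log_rpow hr0] at h3
  have h4 := hgt_low ht
  have hR : 0 ≤ Real.log (rad t) := Real.log_nonneg hr
  have h5 : Real.log (rad t) ≤ Real.log (Q265.NF.PP (S : Set (FinitePlace K))) +
      Real.log (Q265.NF.PP (Q265.BM.Us S ![0, 1] (-(t.2.2 : K) / t.2.1))) := by
    rw [rad_eq ht]
    refine Q265.NF.PP_log S.finite_toSet (Q265.BM.Us_fin S (ratio_ne ht)) ?_
    intro v hv
    by_cases hvS : v ∈ S
    · exact Or.inl hvS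
    · exact Or.inr ⟨hvS, hv.2⟩
  have h6 : (1 - ε) * logHeight₁ (-(t.2.2 : K) / t.2.1) ≤ (1 - ε) * (Real.log C1 + (1 + ε) * Real.log (rad t)) := by
    apply mul_le_mul_of_nonneg_left _ (by linarith)
    linarith
  have h7 : (1 - ε) * (Real.log C1 + (1 + ε) * Real.log (rad t)) ≤ Real.log C1 + Real.log (rad t) := by
    have : 0 ≤ ε ^ 2 * Real.log (rad t) := by positivity
    nlinarith
  linarith

/-- the triples given by the icosahedral forms at `(u, v)` with `M ∣ u v` -/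
def Forms (w M : 𝓞 K) : Set (𝓞 K × 𝓞 K × 𝓞 K) :=
  {t | ∃ u v : 𝓞 K, IsCoprime u v ∧ M ∣ u * v ∧
    t = (tF w u v ^ 2, hF w u v ^ 3, -1728 * fF w u v ^ 5)}

theorem main (hK : Module.finrank ℚ K = 2) {s : K} (hs : s ^ 2 = 5) {w : 𝓞 K} (hw : w ^ 2 = 1 - w)
    {M : 𝓞 K} (hM : M ≠ 0) (h30 : (30 : 𝓞 K) ∣ M) (H : ABCOn (Forms w M)) : ABCOn (K := K) Set.univ := by
  obtain ⟨m, hm, hrep⟩ := coprime_rep hK hs M hM
  have hwK : (w : K) ^ 2 = 1 - (w : K) := by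
    have := congrArg (algebraMap (𝓞 K) K) hw
    simpa using this
  apply of_V
  apply step2 m hm
  apply step1 hwK
  apply to_V H
  rintro y ⟨s', ⟨t, -, -, rfl⟩, hq, rfl⟩ hy0 hy1
  obtain ⟨u, v, hv, huv, hMuv, he⟩ := hrep t
  have hvK : (v : K) ≠ 0 := RingOfIntegers.coe_ne_zero_iff.2 hv
  have es : (4 * X ^ m * (1 - X ^ m) : K[X]).eval t / (1 : K[X]).eval t = (u : K) / v := by
    rw [← he]
    simp
  rw [es] at hq hy0 hy1 ⊢
  simp only [eval_mul, eval_pow, eval_C, f_eval, h_eval] at hq hy0 hy1 ⊢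
  have ef := f_hom (w : K) (u : K) hvK
  have eh := h_hom (w : K) (u : K) hvK
  have hf1 : fF (w : K) ((u : K) / v) 1 = ((fF w u v : 𝓞 K) : K) / (v : K) ^ 12 := by
    have := f_map (algebraMap (𝓞 K) K) w u v
    rw [eq_div_iff (pow_ne_zero _ hvK)]
    refine Eq.trans ?_ this.symm
    rw [ef]
    ring
  have hh1 : hF (w : K) ((u : K) / v) 1 = ((hF w u v : 𝓞 K) : K) / (v : K) ^ 20 := by
    have := h_map (algebraMap (𝓞 K) K) w u v
    rw [eq_div_iff (pow_ne_zero _ hvK)]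
    refine Eq.trans ?_ this.symm
    rw [eh]
    ring
  have hhne : ((hF w u v : 𝓞 K) : K) ≠ 0 := by
    intro h
    apply hq
    rw [hh1, h]
    simp
  have ey : 1728 * fF (w : K) ((u : K) / v) 1 ^ 5 / hF (w : K) ((u : K) / v) 1 ^ 3 =
      1728 * ((fF w u v : 𝓞 K) : K) ^ 5 / ((hF w u v : 𝓞 K) : K) ^ 3 := by
    rw [hf1, hh1]
    field_simp
  rw [ey] at hy0 hy1 ⊢
  have ecoe : ((-1728 * fF w u v ^ 5 : 𝓞 K) : K) = -(1728 * ((fF w u v : 𝓞 K) : K) ^ 5) := by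
    have : algebraMap (𝓞 K) K (-1728 * fF w u v ^ 5) = -(1728 * (algebraMap (𝓞 K) K (fF w u v)) ^ 5) := by
      rw [map_mul, map_neg, map_pow, map_ofNat]
      ring
    exact this
  have ecoh : ((hF w u v ^ 3 : 𝓞 K) : K) = ((hF w u v : 𝓞 K) : K) ^ 3 := map_pow (algebraMap (𝓞 K) K) _ _
  refine ⟨(tF w u v ^ 2, hF w u v ^ 3, -1728 * fF w u v ^ 5), ⟨u, v, huv, hMuv, rfl⟩, ⟨?_, ?_, ?_⟩, ?_⟩
  · show tF w u v ^ 2 + hF w u v ^ 3 + -1728 * fF w u v ^ 5 = 0
    rw [ico]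
    ring
  · show tF w u v ^ 2 * hF w u v ^ 3 * (-1728 * fF w u v ^ 5) ≠ 0
    have hh0 : hF w u v ≠ 0 := fun h => hhne (by rw [h]; exact map_zero _)
    have hf0 : fF w u v ≠ 0 := by
      intro h
      apply hy0
      rw [h]
      have : ((0 : 𝓞 K) : K) = 0 := map_zero _
      rw [this]
      simp
    have ht0 : tF w u v ≠ 0 := by
      intro h
      apply hy1
      rw [div_eq_one_iff_eq (pow_ne_zero _ hhne)]
      have h2 := congrArg (algebraMap (𝓞 K) K) (ico w u v)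
      rw [h] at h2
      simp only [map_add, map_mul, map_pow, map_zero, map_ofNat] at h2
      refine Eq.trans h2.symm ?_
      rw [zero_pow (by norm_num), zero_add]
    have h1728 : (-1728 : 𝓞 K) ≠ 0 := by norm_num
    exact mul_ne_zero (mul_ne_zero (pow_ne_zero _ ht0) (pow_ne_zero _ hh0))
      (mul_ne_zero h1728 (pow_ne_zero _ hf0))
  · have hc : IsCoprime (tF w u v ^ 2) (hF w u v ^ 3) :=
      (cop_th hw huv (h30.trans hMuv)).pow
    obtain ⟨x, y, hxy⟩ := hc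
    rw [Ideal.eq_top_iff_one, ← hxy]
    refine Ideal.add_mem _ (Ideal.mul_mem_left _ _ (Ideal.subset_span ?_))
      (Ideal.mul_mem_left _ _ (Ideal.subset_span ?_))
    · exact Set.mem_insert _ _
    · exact Set.mem_insert_of_mem _ (Set.mem_insert _ _)
  · show 1728 * ((fF w u v : 𝓞 K) : K) ^ 5 / ((hF w u v : 𝓞 K) : K) ^ 3 =
      -((-1728 * fF w u v ^ 5 : 𝓞 K) : K) / ((hF w u v ^ 3 : 𝓞 K) : K)
    rw [ecoe, ecoh, neg_neg]

end Pool.Agent.Q252.IC
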